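import Pool.Agent.H.MP_369bda_lc.G

set_option autoImplicit false

namespace Pool.Agent.Results.MP_369bda_lc.Lift

open Pool.Agent.H.MP_369bda_lc

theorem result (A : Type) (W : Set (Stream' A)) (h : OReg W) (k : ℕ) :
    Mem W k (fun G => ∀ v, G.eve v) ↔ Mem W k (fun _ => True) :=
  ⟨fun g G _ => let ⟨m₀, μ, g⟩ := g (GG A) fun _ => trivial; ⟨m₀, μ, lift h g G⟩,
    fun g G _ => g G trivial⟩

end Pool.Agent.Results.MP_369bda_lc.Lift
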